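import Mathlib

namespace Pool.Agent.Results.MP_e7d137_lc.NotVor

/-- A marginal scenario on `Fin n`. -/
def Scenario {n : ℕ} (M : Set (Finset (Fin n))) : Prop :=
  ∅ ∈ M ∧ ∀ S ∈ M, ∀ T, T ⊆ S → T ∈ M

def Facet {n : ℕ} (M : Set (Finset (Fin n))) (F : Finset (Fin n)) : Prop :=
  F ∈ M ∧ ∀ T ∈ M, F ⊆ T → T = F

def Polymatroid {n : ℕ} (f : Finset (Fin n) → ℝ) : Prop :=
  f ∅ = 0 ∧ (∀ S, 0 ≤ f S) ∧ (∀ S T, S ⊆ T → f S ≤ f T) ∧
    ∀ S T, f (S ∪ T) + f (S ∩ T) ≤ f S + f T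

/-- A partial polymatroid on `M` (only the values of `g` on `M` matter). -/
def PartPoly {n : ℕ} (M : Set (Finset (Fin n))) (g : Finset (Fin n) → ℝ) : Prop :=
  g ∅ = 0 ∧ (∀ S ∈ M, 0 ≤ g S) ∧ (∀ S ∈ M, ∀ T ∈ M, S ⊆ T → g S ≤ g T) ∧
    ∀ S ∈ M, ∀ T ∈ M, S ∪ T ∈ M → g (S ∪ T) + g (S ∩ T) ≤ g S + g T

def NonContextual {n : ℕ} (M : Set (Finset (Fin n))) (g : Finset (Fin n) → ℝ) : Prop :=
  ∃ f, Polymatroid f ∧ ∀ S ∈ M, f S = g S

/-- The facets can be listed without repetition with the running intersection property. -/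
def Vorobev {n : ℕ} (M : Set (Finset (Fin n))) : Prop :=
  ∃ (k : ℕ) (F : Fin k → Finset (Fin n)), Function.Injective F ∧ (∀ S, Facet M S ↔ ∃ i, F i = S) ∧
    ∀ j : Fin k, 0 < j.val → ∃ i, i < j ∧ ∀ x ∈ F j, (∃ l, l < j ∧ x ∈ F l) → x ∈ F i

def MM : Set (Finset (Fin 5)) := {S | S ⊆ {0, 1, 2, 3} ∨ S ⊆ {2, 3, 4}}

instance : DecidablePred (· ∈ MM) := fun S => by unfold MM; exact inferInstanceAs (Decidable (_ ∨ _))

/-- a, b, x, y = 0, 1, 2, 3: the polymatroid of the Vamos matroid; 4 is a common information. -/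
def gN (S : Finset (Fin 5)) : ℕ :=
  if S = ∅ then 0 else if S = {4} then 1 else if S = {2, 4} ∨ S = {3, 4} then 2
  else if S = {2, 3, 4} then 3 else if S.card = 1 then 2 else if S = {0, 1} then 4
  else if S.card = 2 then 3 else 4

theorem result : ∃ (n : ℕ) (M : Set (Finset (Fin n))), Scenario M ∧ Vorobev M ∧
    ∃ g, PartPoly M g ∧ ¬ NonContextual M g := by
  refine ⟨5, MM, ⟨Or.inl (by simp), ?_⟩, ⟨2, ![{0, 1, 2, 3}, {2, 3, 4}], by decide, ?_, by decide⟩,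
    fun S => gN S, ⟨by simp [gN], fun _ _ => by positivity, ?_, ?_⟩, ?_⟩
  · rintro S (h | h) T hT
    exacts [Or.inl (hT.trans h), Or.inr (hT.trans h)]
  · unfold Facet
    decide +kernel
  · have : ∀ S ∈ MM, ∀ T ∈ MM, S ⊆ T → gN S ≤ gN T := by decide +kernel
    exact fun S hS T hT h => by beta_reduce; exact_mod_cast this S hS T hT h
  · have : ∀ S ∈ MM, ∀ T ∈ MM, S ∪ T ∈ MM → gN (S ∪ T) + gN (S ∩ T) ≤ gN S + gN T := by
      decide +kernel
    exact fun S hS T hT h => by beta_reduce; exact_mod_cast this S hS T hT h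
  · rintro ⟨f, ⟨-, -, hm, hs⟩, hf⟩
    have v : ∀ S (k : ℕ), S ∈ MM ∧ gN S = k → f S = k := fun S k h => by rw [hf S h.1, ← h.2]
    have a1 := hs {0, 2, 4} {0, 3, 4}
    have a2 := hs {1, 2, 4} {1, 3, 4}
    have a3 := hs {0, 4} {1, 4}
    have a4 := hs {0, 2} {2, 4}
    have a5 := hs {0, 3} {3, 4}
    have a6 := hs {1, 2} {2, 4}
    have a7 := hs {1, 3} {3, 4}
    have b1 := hm {0, 2, 3} ({0, 2, 4} ∪ {0, 3, 4}) (by decide)
    have b2 := hm {1, 2, 3} ({1, 2, 4} ∪ {1, 3, 4}) (by decide)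
    have b3 := hm {0, 1} ({0, 4} ∪ {1, 4}) (by decide)
    rw [show ({0, 2, 4} ∩ {0, 3, 4} : Finset (Fin 5)) = {0, 4} by decide] at a1
    rw [show ({1, 2, 4} ∩ {1, 3, 4} : Finset (Fin 5)) = {1, 4} by decide] at a2
    rw [show ({0, 4} ∩ {1, 4} : Finset (Fin 5)) = {4} by decide, v {4} 1 (by decide)] at a3
    rw [show ({0, 2} ∩ {2, 4} : Finset (Fin 5)) = {2} by decide, v {2} 2 (by decide),
      show ({0, 2} ∪ {2, 4} : Finset (Fin 5)) = {0, 2, 4} by decide, v {0, 2} 3 (by decide),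
      v {2, 4} 2 (by decide)] at a4
    rw [show ({0, 3} ∩ {3, 4} : Finset (Fin 5)) = {3} by decide, v {3} 2 (by decide),
      show ({0, 3} ∪ {3, 4} : Finset (Fin 5)) = {0, 3, 4} by decide, v {0, 3} 3 (by decide),
      v {3, 4} 2 (by decide)] at a5
    rw [show ({1, 2} ∩ {2, 4} : Finset (Fin 5)) = {2} by decide, v {2} 2 (by decide),
      show ({1, 2} ∪ {2, 4} : Finset (Fin 5)) = {1, 2, 4} by decide, v {1, 2} 3 (by decide),
      v {2, 4} 2 (by decide)] at a6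
    rw [show ({1, 3} ∩ {3, 4} : Finset (Fin 5)) = {3} by decide, v {3} 2 (by decide),
      show ({1, 3} ∪ {3, 4} : Finset (Fin 5)) = {1, 3, 4} by decide, v {1, 3} 3 (by decide),
      v {3, 4} 2 (by decide)] at a7
    rw [v {0, 2, 3} 4 (by decide)] at b1
    rw [v {1, 2, 3} 4 (by decide)] at b2
    rw [v {0, 1} 4 (by decide)] at b3
    push_cast at *
    linarith

end Pool.Agent.Results.MP_e7d137_lc.NotVor
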